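import Pool.Agent.Lib.FD82.E3_Main
import Pool.Agent.Lib.FD82.E4_Det

/-!
# MP_d9cd68_pr, Q1 for determinantal processes

Every automorphism-invariant, finitely dependent determinantal probability measure (Hermitian
kernel) on `{0, 1}^V`, `V` the vertices of the `d`-regular tree, `d ≥ 3`, is a factor of i.i.d.
No spectral gap of the kernel is assumed.

For a determinantal measure the expectation of `∏_{v ∈ W} z_v(σ_v)` is, up to a nonzero factor,
`det (1 - K + D K)` with `D` diagonal with entries of positive real part; it does not vanish,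
because `(1 - K) f = - D K f` and `K (1 - K) ≥ 0` imply `K f = 0` and then `f = 0`.  So the
theorem on processes with a zero-free sector applies with `α = π / 4`.
-/

set_option autoImplicit false

open MeasureTheory

namespace Pool.Agent.Results.MP_d9cd68_pr.Determinantal

open Classical in
/-- **Finitely dependent invariant determinantal processes on regular trees are factors of
i.i.d.** -/
theorem result (d : ℕ) (hd : 3 ≤ d) (V : Type) (G : SimpleGraph V) (hG : G.IsTree)
    (hreg : ∀ v : V, (G.neighborSet v).ncard = d) (μ : Measure (V → Fin 2))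
    (hμ : IsProbabilityMeasure μ)
    (hinv : ∀ g : G ≃g G, μ.map (fun x : V → Fin 2 => x ∘ ⇑g) = μ)
    (hdep : ∃ m : ℕ, ∀ (p : ℕ) (K : Fin p → Set V),
      (∀ i j : Fin p, i ≠ j → ∀ u ∈ K i, ∀ w ∈ K j, m < G.dist u w) →
      ProbabilityTheory.iIndep
        (fun i : Fin p => MeasurableSpace.comap
          (fun x : V → Fin 2 => fun v : K i => x v) MeasurableSpace.pi) μ)
    (K : V → V → ℂ) (hK : ∀ u v, K v u = star (K u v))
    (hdet : ∀ W : Finset V, ((μ.real {ω | ∀ v ∈ W, ω v = 1} : ℝ) : ℂ) =
      (Matrix.of (fun u v : W => K u v)).det) :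
    ∃ Φ : (V → unitInterval) → (V → Fin 2), Measurable Φ ∧
      (∀ g : G ≃g G, ∀ x : V → unitInterval, Φ (x ∘ ⇑g) = Φ x ∘ ⇑g) ∧
      (Measure.infinitePi (fun _ : V => (volume : Measure unitInterval))).map Φ = μ :=
  Pool.Agent.FD82.main_thm hd V G hG hreg 2 μ hμ hinv hdep
    ⟨Real.pi / 4, by positivity, fun W z hz =>
      Pool.Agent.FD82.det_stable hK hdet W z (fun v _ c => hz v c)⟩

end Pool.Agent.Results.MP_d9cd68_pr.Determinantal
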