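import Mathlib
import Pool.Agent.Lib.MP_d9cd68_pr.Ent

set_option autoImplicit false

open MeasureTheory Set

namespace Pool.Agent.Results.MP_d9cd68_pr.EntropyInequality

/-- Shannon entropy (natural logarithm) of the restriction of the random configuration with law
`μ` to the set `A` of vertices. -/
noncomputable def ent {V : Type} {k : ℕ} (μ : Measure (V → Fin k)) (A : Set V) : ℝ :=
  ∑' x : (A → Fin k), Real.negMulLog (μ.real {ω | ∀ a : A, ω a = x a})

/-- the ball of radius `N` around `u` -/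
def ball {V : Type} (G : SimpleGraph V) (u : V) (N : ℕ) : Set V := {z | G.dist u z ≤ N}

/-- **Entropy inequalities for finitely dependent processes on regular trees.**
Let `μ` be an automorphism-invariant finitely dependent probability measure on configurations with
finitely many states over the `d`-regular tree, `d ≥ 3`.  There is a constant `c ≥ 0`, positive
unless the single-site law is a point mass, such that for all adjacent `u`, `v` and every `N`
`(d - 1) H(B_N(u)) + c ≤ (d / 2) H(B_N(u) ∪ B_N(v))` and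
`(d / 2) H(B_N(u) ∪ B_N(v)) + c ≤ H(B_{N+1}(u))`.
For `N = 0` these are the edge-vertex and the star-edge entropy inequality, which are known for
factors of i.i.d. -/
theorem result (d : ℕ) (hd : 3 ≤ d) (V : Type) (G : SimpleGraph V) (hG : G.IsTree)
    (hreg : ∀ v : V, (G.neighborSet v).ncard = d) (k : ℕ) (μ : Measure (V → Fin k))
    (hμ : IsProbabilityMeasure μ)
    (hinv : ∀ g : G ≃g G, μ.map (fun x : V → Fin k => x ∘ ⇑g) = μ)
    (hdep : ∃ m : ℕ, ∀ (p : ℕ) (K : Fin p → Set V),
      (∀ i j : Fin p, i ≠ j → ∀ u ∈ K i, ∀ w ∈ K j, m < G.dist u w) →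
      ProbabilityTheory.iIndep
        (fun i : Fin p => MeasurableSpace.comap
          (fun x : V → Fin k => fun v : K i => x v) MeasurableSpace.pi) μ) :
    ∃ c : ℝ, 0 ≤ c ∧ ((∃ v : V, ent μ {v} ≠ 0) → 0 < c) ∧
      ∀ (N : ℕ) (u v : V), G.Adj u v →
        ((d : ℝ) - 1) * ent μ (ball G u N) + c ≤
          (d : ℝ) / 2 * ent μ (ball G u N ∪ ball G v N) ∧
        (d : ℝ) / 2 * ent μ (ball G u N ∪ ball G v N) + c ≤ ent μ (ball G u (N + 1)) := by
  obtain ⟨m, hm⟩ := hdep
  have P : Pool.Agent.FinDep.Poly G m (ent μ) := Pool.Agent.FinDep.ent_poly μ hinv hm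
  have hne : Nonempty V := hG.1.nonempty
  obtain ⟨o⟩ := hne
  obtain ⟨s, hs, hcard⟩ := Pool.Agent.FinDep.exists_nbrs hG hd hreg o
  obtain ⟨y, hy⟩ : s.Nonempty := Finset.card_pos.1 (by omega)
  have hoy : G.Adj o y := (hs y).1 hy
  obtain ⟨c, hc0, hc, hcM⟩ := Pool.Agent.FinDep.poly_main hG hd hreg P hoy
  refine ⟨c, hc0, hc, ?_⟩
  intro N u v huv
  obtain ⟨h1, h2⟩ := hcM N
  have e1 : ent μ (ball G u N ∪ ball G v N) = ent μ (Pool.Agent.FinDep.Cn G 0 N o y) := by
    rw [← Pool.Agent.FinDep.Cn_transfer hG hd hreg P 0 N hoy huv]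
    congr 1
    ext z
    simp only [ball, Pool.Agent.FinDep.Cn, mem_union, mem_ofPred_eq]
    omega
  have e2 : ∀ M, ent μ (ball G u M) = ent μ {z | G.dist o z ≤ M} := fun M =>
    Pool.Agent.FinDep.ball_transfer hG hd hreg P M hoy huv
  rw [e1, e2, e2]
  constructor
  · linarith
  · linarith

end Pool.Agent.Results.MP_d9cd68_pr.EntropyInequality
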