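import Pool.Agent.Lib.SH95.Final

/-!
# MP_d9cd68_pr, Q1: finitely dependent hard-core processes are factors of i.i.d.

Let `d ≥ 3` and let `μ` be an automorphism-invariant, finitely dependent probability measure on
the configurations with symbols `0, 1, …, k` over the `d`-regular tree.  The symbol `0` means
vacant, and the other symbols are particles of `k` types.  Suppose that the particles interact
by pairwise exclusion only: for any finite set `I` of vertices and particles `c v ≠ 0`, `v ∈ I`,
such that any two of the events `x v = c v` happen together with positive probability, all of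
them are independent.  Then `μ` is a factor of i.i.d.

This covers all `m`-dependent `μ` such that two particles are never at distance at most `m`
(`hard_core` below).  For `m = 1` and `k = 1` these are Shearer's measures, the `1`-dependent
hard-core processes, up to and including the critical density `(d-1)^(d-1)/d^d`.  They have no
zero-free sector (zeros of the independence polynomials of finite regular trees accumulate at a
positive real number), so the hand-in `SectorStable` does not apply to them.

Proof.  A particle is a pair `(v, a)`; `N` is the exclusion relation, which has finite range.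
The void probabilities `f K` (`K` a finite set of particles) satisfy
`f (K ∪ {x}) = f K - q x * f (K \ N x)`, and on the tree they do not vanish.  The configuration
is revealed in the order of i.i.d. labels.  Given the revealed configuration, with revealed
particles `I` and revealed vacancies `K`, a particle `x` compatible with `I` has the probability
`q x * f (K \ (N I ∪ N x)) / f (K \ N I)`.  The ratios `1 - f (K ∪ {x}) / f K` increase with `K`
and are superadditive in `x`; a telescoping sum then bounds the total influence of a revealed
vacancy by `1`, and the total influence of a revealed particle by a constant.  The theory of the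
revealing equation for kernels with bounded total influence (`Pool/Agent/Lib/FD82`, by helper82)
then gives the factor.
-/

set_option autoImplicit false

open MeasureTheory

namespace Pool.Agent.Results.MP_d9cd68_pr.HardCore

/-- **Finitely dependent processes of particles that interact by pairwise exclusion only, on the
`d`-regular tree, are factors of i.i.d.** -/
theorem result (d : ℕ) (hd : 3 ≤ d) (V : Type) (G : SimpleGraph V) (hG : G.IsTree)
    (hreg : ∀ v : V, (G.neighborSet v).ncard = d) (k : ℕ) (μ : Measure (V → Fin (k + 1)))
    (hμ : IsProbabilityMeasure μ)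
    (hinv : ∀ g : G ≃g G, μ.map (fun x : V → Fin (k + 1) => x ∘ ⇑g) = μ)
    (hdep : ∃ m : ℕ, ∀ (p : ℕ) (K : Fin p → Set V),
      (∀ i j : Fin p, i ≠ j → ∀ u ∈ K i, ∀ w ∈ K j, m < G.dist u w) →
      ProbabilityTheory.iIndep
        (fun i : Fin p => MeasurableSpace.comap
          (fun x : V → Fin (k + 1) => fun v : K i => x v) MeasurableSpace.pi) μ)
    (hexcl : ∀ (I : Finset V) (c : V → Fin (k + 1)), (∀ v ∈ I, c v ≠ 0) →
      (∀ u ∈ I, ∀ v ∈ I, u ≠ v → μ {x | x u = c u ∧ x v = c v} ≠ 0) →
      μ {x | ∀ v ∈ I, x v = c v} = ∏ v ∈ I, μ {x | x v = c v}) :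
    ∃ Φ : (V → unitInterval) → (V → Fin (k + 1)), Measurable Φ ∧
      (∀ g : G ≃g G, ∀ x : V → unitInterval, Φ (x ∘ ⇑g) = Φ x ∘ ⇑g) ∧
      (Measure.infinitePi (fun _ : V => (volume : Measure unitInterval))).map Φ = μ := by
  obtain ⟨m, hm⟩ := hdep
  have hyp : Pool.Agent.SH95.Hyp μ := by
    intro I c hc
    by_cases hpair : ∀ u ∈ I, ∀ v ∈ I, u ≠ v → μ {x | x u = c u ∧ x v = c v} ≠ 0
    · left
      rw [measureReal_def, hexcl I c hc hpair, ENNReal.toReal_prod]
      rfl
    · right
      push Not at hpair
      obtain ⟨u, hu, v, hv, huv, h1⟩ := hpair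
      refine ⟨u, hu, v, hv, huv, ?_⟩
      rw [measureReal_def, h1]
      rfl
  exact Pool.Agent.SH95.main_hyp hd hG hreg hinv (Pool.Agent.FD82.mdep_of_iIndep hm) hyp

/-- The hard-core case: an invariant `m`-dependent measure under which two particles are never at
distance at most `m` is a factor of i.i.d. -/
theorem hard_core (d : ℕ) (hd : 3 ≤ d) (V : Type) (G : SimpleGraph V) (hG : G.IsTree)
    (hreg : ∀ v : V, (G.neighborSet v).ncard = d) (k : ℕ) (μ : Measure (V → Fin (k + 1)))
    (hμ : IsProbabilityMeasure μ)
    (hinv : ∀ g : G ≃g G, μ.map (fun x : V → Fin (k + 1) => x ∘ ⇑g) = μ) (m : ℕ)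
    (hdep : ∀ (p : ℕ) (K : Fin p → Set V),
      (∀ i j : Fin p, i ≠ j → ∀ u ∈ K i, ∀ w ∈ K j, m < G.dist u w) →
      ProbabilityTheory.iIndep
        (fun i : Fin p => MeasurableSpace.comap
          (fun x : V → Fin (k + 1) => fun v : K i => x v) MeasurableSpace.pi) μ)
    (hex : ∀ u v : V, u ≠ v → G.dist u v ≤ m → μ {x | x u ≠ 0 ∧ x v ≠ 0} = 0) :
    ∃ Φ : (V → unitInterval) → (V → Fin (k + 1)), Measurable Φ ∧
      (∀ g : G ≃g G, ∀ x : V → unitInterval, Φ (x ∘ ⇑g) = Φ x ∘ ⇑g) ∧
      (Measure.infinitePi (fun _ : V => (volume : Measure unitInterval))).map Φ = μ :=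
  Pool.Agent.SH95.main_hyp hd hG hreg hinv (Pool.Agent.FD82.mdep_of_iIndep hdep)
    (Pool.Agent.SH95.hyp_of_excl hdep hex)

end Pool.Agent.Results.MP_d9cd68_pr.HardCore
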