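import Pool.Agent.Lib.FD82.E3_Main

/-!
# MP_d9cd68_pr, Q1: finitely dependent processes with a zero-free sector are factors of i.i.d.

Let `d ≥ 3` and let `μ` be an automorphism-invariant, finitely dependent probability measure on
the configurations with finitely many states over the `d`-regular tree.  Suppose that for some
`α > 0`, however small, no expectation `E ∏_{v ∈ W} z_v(σ_v)` (`W` finite) vanishes, for nonzero
complex weights with arguments in `(-α, α)`.  Then `μ` is a factor of i.i.d.: the image of i.i.d.
uniform labels under a measurable map that commutes with all automorphisms.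

The proof: the noisy copies of the process (every symbol is kept with probability `s`, else
replaced by a uniform one) are revealed in the order of i.i.d. labels.  The non-vanishing gives a
bound, independent of `s` and of the revealed set, for the total influence of the symbol at one
vertex on the conditional laws at all unrevealed vertices (logarithm of a ratio of two partition
functions, Borel-Caratheodory), and, with the finite dependence, the continuity of the conditional
laws.  By mass transport the revealing equation then has a unique solution, obtained by Picard
iteration, which is a factor of i.i.d.; its dependence on `s` is controlled by Pythagoras' theorem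
for conditional expectations, and `s → 1`.
-/

set_option autoImplicit false

open MeasureTheory

namespace Pool.Agent.Results.MP_d9cd68_pr.SectorStable

/-- **Finitely dependent and zero-free in a sector implies factor of i.i.d.** -/
theorem result (d : ℕ) (hd : 3 ≤ d) (V : Type) (G : SimpleGraph V) (hG : G.IsTree)
    (hreg : ∀ v : V, (G.neighborSet v).ncard = d) (k : ℕ) (μ : Measure (V → Fin k))
    (hμ : IsProbabilityMeasure μ)
    (hinv : ∀ g : G ≃g G, μ.map (fun x : V → Fin k => x ∘ ⇑g) = μ)
    (hdep : ∃ m : ℕ, ∀ (p : ℕ) (K : Fin p → Set V),
      (∀ i j : Fin p, i ≠ j → ∀ u ∈ K i, ∀ w ∈ K j, m < G.dist u w) →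
      ProbabilityTheory.iIndep
        (fun i : Fin p => MeasurableSpace.comap
          (fun x : V → Fin k => fun v : K i => x v) MeasurableSpace.pi) μ)
    (hsector : ∃ α : ℝ, 0 < α ∧ ∀ (W : Finset V) (z : V → Fin k → ℂ),
      (∀ v c, z v c ≠ 0 ∧ |(z v c).arg| < α) → ∫ ω, ∏ v ∈ W, z v (ω v) ∂μ ≠ 0) :
    ∃ Φ : (V → unitInterval) → (V → Fin k), Measurable Φ ∧
      (∀ g : G ≃g G, ∀ x : V → unitInterval, Φ (x ∘ ⇑g) = Φ x ∘ ⇑g) ∧
      (Measure.infinitePi (fun _ : V => (volume : Measure unitInterval))).map Φ = μ :=
  Pool.Agent.FD82.main_thm hd V G hG hreg k μ hμ hinv hdep hsector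

end Pool.Agent.Results.MP_d9cd68_pr.SectorStable
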